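import Pool.Agent.Lib_helper36.StabMain

set_option autoImplicit false

open Pool.Agent.Lib_helper36.Stab N68a2faeb

/-- Assume the Unique Games Conjecture and that `NP` is not contained in `P`. Then for no real
number `α` is there a polynomial-time `α`-approximation algorithm for min-Cost-VERTEX-DEL, even on
the instances whose vertex costs are nonnegative integers taking at most two values. -/
theorem Pool.Agent.Results.MP_f82fc2_lc.NoConstantFactor.result
    (hUG : UniqueGamesConjecture) (hP : ¬ NP ⊆ P) (α : ℝ) :
    ¬ ∃ A : List Bool → List Bool, IsPolyTime A ∧ ApproxTwoCosts α A :=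
  of_unique_games hUG hP α
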